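import Pool.Agent.Helper2.SV.GoalsC
import Pool.Agent.Helper2.SV.GoalsP

/-!
# Project SV, packet JOIN: a minimal claw-free counterexample has no 1-join
-/

set_option autoImplicit false

namespace Pool.Agent.Helper3.SV

open Pool.Agent.Helper2.SV

theorem goalJOIN (hG : G_GLUE) : G_JOIN := by
  intro V _ G w hM hCF V1 A1 A2 hne hnu hA1 hA2 hC hcross
  obtain ⟨g1, g2, -⟩ := hG
  obtain ⟨B1, hB1, pB1, mB1⟩ := hM.ih V1 hnu
  have hn2 : V1ᶜ ≠ Set.univ := by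
    intro h
    obtain ⟨x, hx⟩ := hne
    have h1 : x ∈ V1ᶜ := by rw [h]; exact Set.mem_univ x
    exact h1 hx
  obtain ⟨B2, hB2, pB2, mB2⟩ := hM.ih V1ᶜ hn2
  have hCC : Clq G ((A1 ∩ B1) ∪ (A2 ∩ B2)) :=
    hC.mono (Set.union_subset_union Set.inter_subset_left Set.inter_subset_left)
  have hP1 : Perf G (B1 ∪ ((A1 ∩ B1) ∪ (A2 ∩ B2))) := by
    refine g1 V G B1 _ pB1 (g2 V G _ hCC) (hCC.mono Set.inter_subset_right) ?_
    intro x hx hxC y hy hyB hxy
    rcases hy with hy | hy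
    · exact hyB hy.2
    · exact hxC (Or.inl ⟨(hcross x (hB1 hx) y (hB2 hy.2) hxy).1, hx⟩)
  have hP2 : Perf G ((B1 ∪ ((A1 ∩ B1) ∪ (A2 ∩ B2))) ∪ B2) := by
    refine g1 V G _ B2 hP1 pB2 ?_ ?_
    · refine hCC.mono ?_
      rintro x ⟨hx | hx, hx2⟩
      · exact absurd (hB1 hx) (hB2 hx2)
      · exact hx
    · intro x hx hxB y hy hyC hxy
      have hx1 : x ∈ B1 := by
        rcases hx with hx | hx | hx
        · exact hx
        · exact hx.2
        · exact absurd hx.2 hxB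
      exact hyC (Or.inr (Or.inr ⟨(hcross x (hB1 hx1) y (hB2 hy) hxy).2, hy⟩))
  have hP : Perf G (B1 ∪ B2) :=
    hP2.mono (Set.union_subset_union Set.subset_union_left subset_rfl)
  obtain ⟨K, hT, hmiss, hfree⟩ := hM.free _ hP
  obtain ⟨y, hyK, hy⟩ : ∃ y ∈ K, y ∉ V1 := by
    by_contra h
    push Not at h
    obtain ⟨x, hx, hx1⟩ := mB1 K hT (fun z hz => h z hz)
    exact hmiss x hx (Or.inl hx1)
  obtain ⟨v, hvK, hv⟩ : ∃ v ∈ K, v ∈ V1 := by
    by_contra h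
    push Not at h
    obtain ⟨x, hx, hx1⟩ := mB2 K hT (fun z hz => h z hz)
    exact hmiss x hx (Or.inr hx1)
  have hKc : ∀ a ∈ K, ∀ b ∈ K, a ≠ b → G.Adj a b := fun a ha b hb => hT.2.1 a ha b hb
  have hKA : ∀ z ∈ K, z ∈ A1 ∪ A2 := by
    intro z hz
    by_cases hz1 : z ∈ V1
    · have hzy : z ≠ y := fun h => hy (h ▸ hz1)
      exact Or.inl (hcross z hz1 y hy (hKc z hz y hyK hzy)).1
    · have hvz : v ≠ z := fun h => hz1 (h ▸ hv)
      exact Or.inr (hcross v hv z hz1 (hKc v hvK z hz hvz)).2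
  have hAK : ∀ z ∈ A1 ∪ A2, z ∈ K := by
    intro z hz
    by_contra hzK
    exact hM.max K hT z fun x hx => hC z hz x (hKA x hx) fun h => hzK (h ▸ hx)
  refine hfree v hvK ?_
  have key : ∀ a, G.Adj v a → a ∉ K → a ∈ V1 ∧ ¬ G.Adj y a := by
    intro a hva haK
    have h1 : a ∈ V1 := by
      by_contra h
      exact haK (hAK a (Or.inr (hcross v hv a h hva).2))
    exact ⟨h1, fun h => haK (hAK a (Or.inl (hcross a h1 y hy h.symm).1))⟩
  have hvy : v ≠ y := fun h => hy (h ▸ hv)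
  rintro a ⟨hva, haK⟩ b ⟨hvb, hbK⟩ hab
  obtain ⟨ha1, hya⟩ := key a hva haK
  obtain ⟨hb1, hyb⟩ := key b hvb hbK
  rcases hCF v y a b (hKc v hvK y hyK hvy) hva hvb (fun h => hy (h ▸ ha1))
    (fun h => hy (h ▸ hb1)) hab with h | h | h
  · exact absurd h hya
  · exact absurd h hyb
  · exact h

end Pool.Agent.Helper3.SV
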